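import Pool.Agent.K1H36.TB.Main

/-!
# Exact Triangle: time and space for bounded error

A program (`DProg`) has random access to the `n × n` matrix of pairs (flag, weight). It has a finite
set `Z` of configurations; with `2 ^ S` configurations it uses `S` bits of memory. In each
configuration it reads one cell of the matrix, chosen by the configuration, and then passes to the
configuration determined by the present one and the content of the cell. Only the reads are counted;
the program may be different for every `n` and arbitrary computations between two reads are free. A
randomized word RAM with read-only input is a random program `M ω`: the random bits may even be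
looked up again for free.

**Result.** A random program which decides Exact Triangle on `n` vertices with error at most `1 / 3`
on every instance (both kinds of errors are allowed) and has at most `n / log₂ n` bits of memory
needs `T ≥ n ^ 2 (log₂ log₂ n - 120) / 3456` reads. In particular no bounded-error algorithm with
`n / log n` bits of memory runs in time `O (n ^ 2)`.

**Relation to `TimeSpaceTradeoff`.** There the answer `no` must never be wrong, and one may cover the
inputs which are accepted by rectangles that overlap. With errors on both sides each input must be in
one class only, and a zero triangle which is planted in an instance is seen by a random choice of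
blocks with probability `2 ^ (- i - j)` only, if its two free edges are read in `i` and `j` blocks,
where `i` and `j` depend on the input. Here a class is given by the configurations at the ends of the
blocks and by the numbers of the blocks of both kinds in which each edge is read (up to a bound);
then the classes are disjoint, for fixed values of the other variables they are rectangles, and a
zero triangle can be counted with the weight `2 ^ (i + j)`. The price is `O (log k)` bits for each
edge, which is paid from the `log n` bits of its weight as long as the number of the passes is
`O (log log n)`. What is needed for large rectangles is not only that there is a zero triangle, but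
that the number of zero triangles is almost the expected one (`bucket`, `bad_count`).
-/

set_option autoImplicit false

namespace Pool.Agent.Results.MP_62fbe0_lc.BoundedErrorTimeSpace

open Pool.Agent.K1H36.NF Pool.Agent.K1H36.TB

open Classical in
/-- Let `1 ≤ S ≤ n / log₂ n` and let `M ω`, where `ω` is random with the probabilities `P ω`, be
deterministic programs with at most `2 ^ S` configurations and with random access to the `n × n`
matrix of pairs (flag, weight), which answer after `T` reads. Suppose that on each instance of Exact
Triangle on `n` vertices the answer is correct with probability at least `2 / 3`. Then
`n ^ 2 (log₂ log₂ n - 120) ≤ 3456 T`. -/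
theorem result {n T : ℕ} {S : ℝ} (hS : 1 ≤ S) (hSn : S ≤ n / Real.logb 2 n)
    {Z Ω : Type} [Fintype Z] [Fintype Ω]
    (hZ : (Fintype.card Z : ℝ) ≤ 2 ^ S) (P : Ω → ℝ) (hP : ∀ ω, 0 ≤ P ω) (hP1 : ∑ ω, P ω = 1)
    (M : Ω → DProg (Fin n × Fin n) (Bool × ℤ) Z)
    (hyes : ∀ x, Valid n x → Yes n x →
      2 / 3 ≤ ∑ ω ∈ Finset.univ.filter (fun ω => (M ω).Says x T), P ω)
    (hno : ∀ x, Valid n x → ¬ Yes n x →
      2 / 3 ≤ ∑ ω ∈ Finset.univ.filter (fun ω => ¬ (M ω).Says x T), P ω) :
    (n : ℝ) ^ 2 * (Real.logb 2 (Real.logb 2 n) - 120) ≤ 3456 * T :=
  bounded_main hS hSn hZ P hP hP1 M hyes hno

end Pool.Agent.Results.MP_62fbe0_lc.BoundedErrorTimeSpace
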