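import Pool.Agent.K1H36.TW.Final

/-!
# Exact Triangle by comparisons of at most three weights

An algorithm (`Algorithm`) uses the weights only through tests. A test is an affine form in the
weights with integral coefficients; its sign (negative, zero or positive) is learnt, and the next
test may depend on everything learnt before. Everything else is free: the edge flags, the `a` lowest
bits of all the weights, all the bits of all the weights from place `b` on (only a window of
`b - a = 24 log₂ n` bits of every weight is hidden), all computations, and all the tests with at
most ten weights which are not charged.

A test is charged (`Charged`) if its linear part is balanced, which means: on the complete tripartite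
graph with three parts of `m` vertices it vanishes for all weights which are differences of
potentials, `w (u, v) = z u - z v` for `u` in part `s` and `v` in part `s + 1` (modulo three), but
not for all weights on this graph. The weights of a triangle of this graph have a balanced sum. The
charged tests must have at most three weights (`Allowed`). If all tests have at most three weights
then every test with coefficients which are not too large is allowed.

**Result.** There is an instance on `n ≥ 3 m` vertices without a triangle of weight zero for which
each randomized algorithm with error probability at most `ε` needs at least `(1 - 2 ε) m ^ 3`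
charged tests on average, and each accepting computation of a nondeterministic algorithm for the
no-instances has at least `m ^ 3` charged tests. So, with `m = n / 3`, the Exact Triangle hypothesis
is true for algorithms of this kind, with `(1 - 2 ε) n ^ 3 / 27` in the place of `n ^ (3 - ε)`.
Exhaustive search makes at most `n ^ 3` tests, with three weights and the coefficients `1`.

The bound is false if charged tests with four weights are allowed: then `O (n ^ (5 / 2) √(log n))`
tests are enough (Grønlund and Pettie 2014, by comparisons of differences of two weights; not proved
here). For 3SUM the lower bound for comparisons with three numbers is a theorem of Erickson (1995).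
The earlier results for this problem do not treat order comparisons: `GenericRing` has equality
tests, differences of near values and residues.

**Proof.** The potentials `z` are chosen by counting such that a sparse form vanishes for the
differences of these potentials only if it is balanced. The weights are `2 ^ b (z u - z v) + 2 ^ k`, with `a ≤ k < b`; a
triangle `T` is planted by removing `2 ^ k` on its three edges. An unbalanced test has the same sign
for both instances, since its value is dominated by the multiple of `2 ^ b`. A balanced form with at
most three weights is a multiple of the sum over a triangle `T'`; if `T' ≠ T`, this sum is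
`3 · 2 ^ k` for one instance and `2 · 2 ^ k` or `3 · 2 ^ k` for the other, so the sign is the same
again. Hence every triangle has to be tested.
-/

set_option autoImplicit false

namespace Pool.Agent.Results.MP_62fbe0_lc.ThreeWeightComparisons

open Finset Pool.Agent.K1H36.TW

open Classical in
/-- (1) Let `1 ≤ m`, `3 m ≤ n`, `S ≤ 10`, `B ≤ n ^ 10`, `2 ^ a n ^ 24 ≤ 2 ^ b ≤ n ^ 150`. There is an
instance `(e, w)` on `n` vertices without a triangle of weight zero such that:
* if `A γ` (`γ` a guess) is a nondeterministic algorithm with allowed tests which accepts exactly the
  instances without a triangle of weight zero, then each accepting computation for `(e, w)` has at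
  least `m ^ 3` charged tests;
* if `A ω` is a randomized algorithm with allowed tests whose error probability is at most `ε` for
  each instance, then the average number of charged tests for `(e, w)` is at least
  `(1 - 2 ε) m ^ 3`.

(2) Tests with at most three weights, the coefficients `0` and `1` and the constant `0` suffice, and
at most `n ^ 3` of them. -/
theorem result :
    (∀ (n m S B a b : ℕ) [NeZero m], 3 * m ≤ n → S ≤ 10 → B ≤ n ^ 10 → n ^ 24 * 2 ^ a ≤ 2 ^ b →
      2 ^ b ≤ n ^ 150 →
      ∃ (e : Fin n → Fin n → Bool) (w : Fin n → Fin n → ℤ), IsInstance n e w ∧
        ¬ HasZeroTriangle e w ∧
        (∀ (Γ : Type) (A : Γ → Algorithm n), (∀ γ, (A γ).All (Allowed m S B)) →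
          (∀ e w, IsInstance n e w →
            ((∃ γ, (A γ).Accepts a b e w) ↔ ¬ HasZeroTriangle e w)) →
          ∀ γ, (A γ).Accepts a b e w → m ^ 3 ≤ cost m ((A γ).tree a b e w) w) ∧
        ∀ (Ω : Type) [Fintype Ω] (p : Ω → ℝ), (∀ ω, 0 ≤ p ω) → ∑ ω, p ω = 1 →
          ∀ (A : Ω → Algorithm n) (ε : ℝ), (∀ ω, (A ω).All (Allowed m S B)) →
            (∀ e w, IsInstance n e w →
              ∑ ω with ¬ ((A ω).Accepts a b e w ↔ HasZeroTriangle e w), p ω ≤ ε) →
            (1 - 2 * ε) * (m : ℝ) ^ 3 ≤ ∑ ω, p ω * (cost m ((A ω).tree a b e w) w : ℝ)) ∧
    ∀ n : ℕ, ∃ A : Algorithm n,
      A.All (fun t => t.cells.card ≤ 3 ∧ (∀ i j, t.coef i j = 0 ∨ t.coef i j = 1) ∧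
        t.const = 0) ∧
      ∀ a b e w, IsInstance n e w → (A.Accepts a b e w ↔ HasZeroTriangle e w) ∧
        ((A.tree a b e w).path w).length ≤ n ^ 3 :=
  ⟨fun _ _ _ _ _ _ _ hm hS hB hab hb => lower_concrete hm hS hB hab hb, upper⟩

end Pool.Agent.Results.MP_62fbe0_lc.ThreeWeightComparisons
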