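import Pool.Agent.K1H36.TS.Main

/-!
# Exact Triangle: time and space

A program (`Prog`) has random access to the `n × n` matrix of pairs (flag, weight). It has a finite
set `Z` of configurations; with `2 ^ S` configurations it uses `S` bits of memory. In each
configuration it reads one cell of the matrix, which is chosen by the configuration (so it may depend
on everything that was read before), and it then passes to one of several possible configurations.
Only the reads are counted, the program may be different for every `n`, and arbitrary computations
between two reads are free. In particular each word RAM with read-only input which uses `S` bits of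
memory (the positions of the heads and the program counter included) is of this kind, and a
randomized word RAM is a random program `M ω`. The programs may also guess.

**Result.** Let `M ω` be a random program for Exact Triangle on `n` vertices with `S` bits of memory
which never accepts a yes-instance and which accepts each no-instance, with probability at least one
half, after at most `T` reads. Then `5760 T ≥ n ^ 2 (log₂ (n / S) - 223)`. So an algorithm of this
kind with at most `n ^ (1 - ε)` bits of memory needs `Ω (ε n ^ 2 log n)` reads. This applies to
deterministic algorithms, to randomized algorithms which are always correct, to randomized
algorithms whose answer `no` is always correct, and to nondeterministic algorithms for the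
complement.

**Method.** This is the method of Borodin-Cook, Ajtai and Beame-Saks-Sun-Vee: an accepting
computation is cut into `O (k ^ 2 n)` blocks, where `T = k n ^ 2`, and a random set `J` of blocks
leaves a fraction `2 ^ (- O (k))` of the variables which are read in blocks of `J` only and similarly
for the other blocks. For given configurations at the ends of the blocks and given sets of such
variables the accepted inputs form a rectangle (for each choice of the other variables). What is
needed is that rectangles of no-instances are much smaller than `2 ^ (- O (k))` for each variable.
Here the weights of the edges from the part `Q` to the parts `P` and `R` of a tripartite graph are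
free vectors of four digits modulo a prime `l`, and the weight of the edge from `p` to `t` is
`- t (p, p ^ 2, p ^ 3, p ^ 4)`. By a character sum estimate on the moment curve (`mixing`) each
variable of a rectangle without zero triangles loses a factor of about `√ l` on the average.
-/

set_option autoImplicit false

namespace Pool.Agent.Results.MP_62fbe0_lc.TimeSpaceTradeoff

open Pool.Agent.K1H36.NF Pool.Agent.K1H36.TS

open Classical in
/-- Let `S ≥ 1` and let `M ω`, where `ω` is random with the probabilities `P ω`, be nondeterministic
programs with at most `2 ^ S` configurations and with random access to the `n × n` matrix of pairs
(flag, weight). Suppose that no `M ω` accepts a yes-instance of Exact Triangle on `n` vertices, and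
that each no-instance is accepted by `M ω` with at most `T` reads with probability at least `1 / 2`.
Then `n ^ 2 (log₂ (n / S) - 223) ≤ 5760 T`. -/
theorem result {n T : ℕ} {S : ℝ} (hS : 1 ≤ S) {Z Ω : Type} [Fintype Z] [Fintype Ω]
    (hZ : (Fintype.card Z : ℝ) ≤ 2 ^ S) (P : Ω → ℝ) (hP : ∀ ω, 0 ≤ P ω) (hP1 : ∑ ω, P ω = 1)
    (M : Ω → Prog (Fin n × Fin n) (Bool × ℤ) Z)
    (sound : ∀ ω x, Valid n x → (M ω).Accepts x → ¬ Yes n x)
    (complete : ∀ x, Valid n x → ¬ Yes n x →
      1 / 2 ≤ ∑ ω ∈ Finset.univ.filter (fun ω => (M ω).AcceptsIn x T), P ω) :
    (n : ℝ) ^ 2 * (Real.logb 2 (n / S) - 223) ≤ 5760 * T :=
  tradeoff_main hS hZ P hP hP1 M sound complete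

end Pool.Agent.Results.MP_62fbe0_lc.TimeSpaceTradeoff
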