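import Pool.Agent.K1H36.NF.Super

/-!
# Exact Triangle: treewidth times reads

A word circuit (`WCirc`) consists of gates with values in a finite set `Z` (words). A wire goes from
a cell `(i, j)` of the input matrix or from an earlier gate to a gate; a wire from a cell carries the
whole entry `(e i j, w i j)`, and each such wire is a read. A gate with given values on its wires may
have several possible values (guesses). The circuit accepts if there are possible values of all gates
with an accepting value at the output gate (`Accepts`); it is unambiguous if there is at most one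
such assignment for each input. In particular circuits whose gates compute arbitrary functions of
their wires are unambiguous. The treewidth is the treewidth of the graph of the gates (without the
input cells). For instance, an algorithm which reads the cells in an order that is fixed in advance
and keeps `θ` words in its memory gives a circuit of treewidth `O(θ)`.

**Result.** Circuits which decide Exact Triangle (always correctly) and whose treewidth is at most
`n ^ (2 - ε)`, with words of `c log₂ n` bits and gates of bounded fan-in, have at least
`(ε / 1248) n ^ 2 log₂ n` reads; the input has `n ^ 2` cells. The same is true for nondeterministic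
circuits which accept exactly the no-instances, and for the expected number of the reads of
randomized circuits which are always correct. More precisely there is a trade-off between the
treewidth and the number of reads.

**Relation to earlier results.** Trade-offs of this kind for 3SUM and for triangles in lists of edges
use a partition of the gates into two sides. Here this method gives only treewidth `n ^ (1 - ε)`: if
the treewidth is larger, then the gates can be arranged such that each pair of cells which have a
row or a column in common is read in the same part of the circuit. So three players are needed,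
each of whom does not know (has on the forehead) the entries for the edges between two of the parts
of a tripartite graph; the triangles whose edges are all read in one part are few by the inequality
of Loomis and Whitney. For three players the rank and fooling set arguments are replaced by a
discrepancy bound, which is proved here for blocks of `512 × 512` triangles.

**Proof.** The circuit is divided into `O(r ^ 3)` parts with at most `(m / 4 r) ^ 2` reads and a small
boundary. Colour the parts at random with three colours. There are a colouring and
`m ^ 2 / 2 ^ (39 r)` edge-disjoint triangles such that the edge number `i` of each of them is read in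
no part of the colour `i`. Group the triangles into blocks of `512 × 512`. In each block the weights
of the edges number `0` say which triangles may get the weight zero, the weights of the edges number
`1` and `2` select a row and a column. For fixed values of the gates at the boundary the accepted
inputs form a cylinder intersection, and a cylinder intersection has discrepancy at most
`4 ^ (- k)` for the product of the `k` selected signs, whereas the no-instances have density
`2 ^ (- k)`.
-/

set_option autoImplicit false

namespace Pool.Agent.Results.MP_62fbe0_lc.TreewidthTimesReads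

open Pool.Agent.K1H36.NF Pool.Agent.Y631.Wc

/-- (1) Let `1 ≤ m`, `3 m ≤ n`, `1 ≤ r`, `2 ≤ L`, and let `C` be a word circuit for matrices of pairs
(flag, weight) with at most `L` words, fan-in at most `κ`, treewidth at most `θ` and at most `r m ^ 2`
reads. Put `k = ⌊m ^ 2 / 2 ^ (39 r + 18)⌋` and `K = 1026 r ^ 3 (κ + 1) (θ + 1)`. If, among the valid
instances of Exact Triangle on `n` vertices, `C` accepts exactly the no-instances, then
`2 ^ k ≤ L ^ K`. If `C` is unambiguous and accepts exactly the yes-instances, then
`2 ^ k ≤ L ^ K + 1`.

(2) Let `0 < ε ≤ 2`. For all large `n`: if there are at most `n ^ c` words, the fan-in is at most `κ`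
and the treewidth is at most `n ^ (2 - ε)`, and if `C` accepts exactly the no-instances or is
unambiguous and accepts exactly the yes-instances, then `C` has at least
`(ε / 1248) n ^ 2 log₂ n` reads.

(3) The same holds for the expected number of reads of a random circuit all of whose outcomes are of
this kind. -/
theorem result :
    (∀ (n m κ θ r L : ℕ) [NeZero m] (Z : Type) [Fintype Z], 3 * m ≤ n → 1 ≤ r → 2 ≤ L →
      Fintype.card Z ≤ L → ∀ C : WCirc (Fin n × Fin n) (Bool × ℤ) Z, C.FanIn κ →
        C.TreewidthLE θ → C.reads ≤ r * m ^ 2 →
        ((∀ x, Valid n x → (C.Accepts x ↔ ¬ Yes n x)) →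
          2 ^ (m ^ 2 / 2 ^ (39 * r + 18)) ≤ L ^ (1026 * r ^ 3 * (κ + 1) * (θ + 1))) ∧
        (C.Unambiguous → (∀ x, Valid n x → (C.Accepts x ↔ Yes n x)) →
          2 ^ (m ^ 2 / 2 ^ (39 * r + 18)) ≤ L ^ (1026 * r ^ 3 * (κ + 1) * (θ + 1)) + 1)) ∧
    (∀ (c κ : ℕ) (ε : ℝ), 0 < ε → ε ≤ 2 → ∃ n₀ : ℕ, ∀ n ≥ n₀,
      ∀ (Z : Type) [Fintype Z], Fintype.card Z ≤ n ^ c →
        ∀ (C : WCirc (Fin n × Fin n) (Bool × ℤ) Z) (θ : ℕ), C.FanIn κ → C.TreewidthLE θ →
          (θ : ℝ) ≤ (n : ℝ) ^ (2 - ε) →
          ((∀ x, Valid n x → (C.Accepts x ↔ ¬ Yes n x)) ∨
            (C.Unambiguous ∧ ∀ x, Valid n x → (C.Accepts x ↔ Yes n x))) →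
          ε / 1248 * (n ^ 2 * Real.logb 2 n) ≤ C.reads) ∧
    ∀ (c κ : ℕ) (ε : ℝ), 0 < ε → ε ≤ 2 → ∃ n₀ : ℕ, ∀ n ≥ n₀,
      ∀ (Z : Type) [Fintype Z], Fintype.card Z ≤ n ^ c →
        ∀ (Ω : Type) [Fintype Ω] (p : Ω → ℝ), (∀ ω, 0 ≤ p ω) → ∑ ω, p ω = 1 →
          ∀ (C : Ω → WCirc (Fin n × Fin n) (Bool × ℤ) Z) (θ : ℕ), (∀ ω, (C ω).FanIn κ) →
            (∀ ω, (C ω).TreewidthLE θ) → (θ : ℝ) ≤ (n : ℝ) ^ (2 - ε) →
            (∀ ω, (C ω).Unambiguous ∧ ∀ x, Valid n x → ((C ω).Accepts x ↔ Yes n x)) →
            ε / 1248 * (n ^ 2 * Real.logb 2 n) ≤ ∑ ω, p ω * ((C ω).reads : ℝ) := by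
  refine ⟨fun n m κ θ r L _ Z _ hn hr hL hZ C hκ hθ hR => tradeoff hn hr hL hZ C hκ hθ hR,
    superlinear, fun c κ ε hε hε2 => ?_⟩
  obtain ⟨n₀, h⟩ := superlinear c κ ε hε hε2
  refine ⟨n₀, fun n hn Z _ hZ Ω _ p hp hp1 C θ hκ hθ hθn hC => ?_⟩
  calc ε / 1248 * (n ^ 2 * Real.logb 2 n) =
      ∑ ω, p ω * (ε / 1248 * (n ^ 2 * Real.logb 2 n)) := by
        rw [← Finset.sum_mul, hp1, one_mul]
    _ ≤ ∑ ω, p ω * ((C ω).reads : ℝ) := by
        refine Finset.sum_le_sum fun ω _ => mul_le_mul_of_nonneg_left ?_ (hp ω)
        exact h n hn Z hZ (C ω) θ (hκ ω) (hθ ω) hθn (Or.inr (hC ω))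

end Pool.Agent.Results.MP_62fbe0_lc.TreewidthTimesReads
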